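import Pool.Agent.N637.SLM.Stm7

set_option autoImplicit false

namespace Pool.Agent.N87.AN

open Finset Pool.Agent.N637.SLM
open Pool.Agent.W262.RK (dv sgn sg0 NL)

/-- the squarefree part of `d e` -/
def kk (d e : ℕ) : ℕ := (d / Nat.gcd d e) * (e / Nat.gcd d e)

lemma sgn_dvd (p : ℕ) (hp : p.Prime) (D : ℕ) : sgn p ((p * D : ℕ) : ℤ) = sg0 p (D : ℤ) := by
  unfold sgn
  have h : Int.gcd ((p * D : ℕ) : ℤ) (p : ℤ) = p := by
    rw [Int.gcd_natCast_natCast]
    exact Nat.gcd_eq_right (dvd_mul_right p D)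
  rw [h]
  have h2 : ((p * D : ℕ) : ℤ) / (p : ℤ) = (D : ℤ) := by
    push_cast
    exact Int.mul_ediv_cancel_left _ (by exact_mod_cast hp.ne_zero)
  rw [h2]

lemma sgn_ndvd (p : ℕ) (hp : p.Prime) (d : ℕ) (h : ¬ p ∣ d) : sgn p (d : ℤ) = sg0 p (d : ℤ) := by
  unfold sgn
  have h1 : Int.gcd (d : ℤ) (p : ℤ) = 1 := by
    rw [Int.gcd_natCast_natCast]
    exact Nat.Coprime.symm ((Nat.Prime.coprime_iff_not_dvd hp).2 h)
  rw [h1]
  simp

lemma sg0_mul (p : ℕ) (hp : p.Prime) (D E G K : ℕ) (h : D * E = G ^ 2 * K)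
    (hD : ¬ p ∣ D) (hE : ¬ p ∣ E) : sg0 p (K : ℤ) = xor (sg0 p (D : ℤ)) (sg0 p (E : ℤ)) := by
  have hDE : ¬ p ∣ D * E := fun hh => (hp.dvd_mul.1 hh).elim hD hE
  have hG : ¬ p ∣ G := fun hh => hDE (by rw [h]; exact Dvd.dvd.mul_right (dvd_pow hh two_ne_zero) _)
  have nz : ∀ x : ℕ, ¬ p ∣ x → jacobiSym (x : ℤ) p ≠ 0 := fun x hx => by
    apply jacobiSym.ne_zero
    rw [Int.gcd_natCast_natCast]
    exact Nat.Coprime.symm ((Nat.Prime.coprime_iff_not_dvd hp).2 hx)
  have e1 : jacobiSym (D : ℤ) p * jacobiSym (E : ℤ) p = jacobiSym (K : ℤ) p := by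
    rw [← jacobiSym.mul_left]
    have e2 : (D : ℤ) * (E : ℤ) = (G : ℤ) * (G : ℤ) * (K : ℤ) := by
      have := congrArg (Nat.cast : ℕ → ℤ) h
      push_cast at this
      rw [this]; ring
    rw [e2, jacobiSym.mul_left, jacobiSym.mul_left]
    have hg := nz G hG
    rcases jacobiSym.trichotomy (G : ℤ) p with h0 | h0 | h0
    · exact absurd h0 hg
    · rw [h0]; ring
    · rw [h0]; ring
  unfold sg0
  rw [← e1]
  rcases jacobiSym.trichotomy (D : ℤ) p with h0 | h0 | h0
  · exact absurd h0 (nz D hD)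
  · rcases jacobiSym.trichotomy (E : ℤ) p with h1 | h1 | h1
    · exact absurd h1 (nz E hE)
    · rw [h0, h1]; decide
    · rw [h0, h1]; decide
  · rcases jacobiSym.trichotomy (E : ℤ) p with h1 | h1 | h1
    · exact absurd h1 (nz E hE)
    · rw [h0, h1]; decide
    · rw [h0, h1]; decide

lemma dv_nat (p d : ℕ) : dv p (d : ℤ) = decide (p ∣ d) := by
  unfold dv
  congr 1
  exact propext Int.natCast_dvd_natCast

lemma key (p : ℕ) (hp : p.Prime) (d e : ℕ) (hd : Squarefree d) (he : Squarefree e) :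
    dv p ((kk d e : ℕ) : ℤ) = xor (dv p (d : ℤ)) (dv p (e : ℤ)) ∧
      sgn p ((kk d e : ℕ) : ℤ) = xor (sgn p (d : ℤ)) (sgn p (e : ℤ)) := by
  have hd0 : 0 < d := Nat.pos_of_ne_zero hd.ne_zero
  have he0 : 0 < e := Nat.pos_of_ne_zero he.ne_zero
  obtain ⟨g, hg⟩ : ∃ g, g = Nat.gcd d e := ⟨_, rfl⟩
  have hg0 : 0 < g := by rw [hg]; exact Nat.gcd_pos_of_pos_left _ hd0
  obtain ⟨a, ha⟩ : ∃ a, a = d / g := ⟨_, rfl⟩
  obtain ⟨b, hb⟩ : ∃ b, b = e / g := ⟨_, rfl⟩
  have hda : d = g * a := by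
    rw [ha, Nat.mul_div_cancel' (by rw [hg]; exact Nat.gcd_dvd_left d e)]
  have heb : e = g * b := by
    rw [hb, Nat.mul_div_cancel' (by rw [hg]; exact Nat.gcd_dvd_right d e)]
  have hk : kk d e = a * b := by unfold kk; rw [ha, hb, hg]
  have hab : Nat.Coprime a b := by
    rw [ha, hb, hg]
    exact Nat.coprime_div_gcd_div_gcd (hg ▸ hg0)
  have sqd : ∀ x : ℕ, d = p * x → ¬ p ∣ x := fun x hx hpx => by
    obtain ⟨y, hy⟩ := hpx
    have : p * p ∣ d := ⟨y, by rw [hx, hy]; ring⟩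
    exact hp.one_lt.ne' (Nat.isUnit_iff.1 (hd p this))
  have sqe : ∀ x : ℕ, e = p * x → ¬ p ∣ x := fun x hx hpx => by
    obtain ⟨y, hy⟩ := hpx
    have : p * p ∣ e := ⟨y, by rw [hx, hy]; ring⟩
    exact hp.one_lt.ne' (Nat.isUnit_iff.1 (he p this))
  rw [hk, dv_nat, dv_nat, dv_nat]
  by_cases h1 : p ∣ d
  · by_cases h2 : p ∣ e
    · -- both
      have hpg : p ∣ g := by rw [hg]; exact Nat.dvd_gcd h1 h2
      obtain ⟨G, hG⟩ := hpg
      have hD : d = p * (G * a) := by rw [hda, hG]; ring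
      have hE : e = p * (G * b) := by rw [heb, hG]; ring
      have nD := sqd _ hD
      have nE := sqe _ hE
      have na : ¬ p ∣ a := fun h => nD (h.mul_left _)
      have nb : ¬ p ∣ b := fun h => nE (h.mul_left _)
      have nab : ¬ p ∣ a * b := fun hh => (hp.dvd_mul.1 hh).elim na nb
      refine ⟨by simp [h1, h2, nab], ?_⟩
      rw [sgn_ndvd p hp _ nab]
      conv_rhs => rw [hD, hE]
      rw [sgn_dvd p hp, sgn_dvd p hp]
      exact sg0_mul p hp _ _ G _ (by ring) nD nE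
    · -- only d
      have npg : ¬ p ∣ g := fun h => h2 (by rw [heb]; exact h.mul_right _)
      have hpa : p ∣ a := by
        have := h1; rw [hda] at this
        exact (hp.dvd_mul.1 this).resolve_left npg
      obtain ⟨a', ha'⟩ := hpa
      have hD : d = p * (g * a') := by rw [hda, ha']; ring
      have nD := sqd _ hD
      have hab' : a * b = p * (a' * b) := by rw [ha']; ring
      refine ⟨by simp [h1, h2, hab'], ?_⟩
      rw [hab', sgn_dvd p hp, sgn_ndvd p hp e h2]
      conv_rhs => rw [hD]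
      rw [sgn_dvd p hp]
      exact sg0_mul p hp _ _ g _ (by rw [heb]; ring) nD h2
  · by_cases h2 : p ∣ e
    · have npg : ¬ p ∣ g := fun h => h1 (by rw [hda]; exact h.mul_right _)
      have hpb : p ∣ b := by
        have := h2; rw [heb] at this
        exact (hp.dvd_mul.1 this).resolve_left npg
      obtain ⟨b', hb'⟩ := hpb
      have hE : e = p * (g * b') := by rw [heb, hb']; ring
      have nE := sqe _ hE
      have hab' : a * b = p * (a * b') := by rw [hb']; ring
      refine ⟨by simp [h1, h2, hab'], ?_⟩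
      rw [hab', sgn_dvd p hp, sgn_ndvd p hp d h1]
      conv_rhs => rw [hE]
      rw [sgn_dvd p hp]
      exact sg0_mul p hp _ _ g _ (by rw [hda]; ring) h1 nE
    · have na : ¬ p ∣ a := fun h => h1 (by rw [hda]; exact h.mul_left _)
      have nb : ¬ p ∣ b := fun h => h2 (by rw [heb]; exact h.mul_left _)
      have nab : ¬ p ∣ a * b := fun hh => (hp.dvd_mul.1 hh).elim na nb
      refine ⟨by simp [h1, h2, nab], ?_⟩
      rw [sgn_ndvd p hp _ nab, sgn_ndvd p hp d h1, sgn_ndvd p hp e h2]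
      exact sg0_mul p hp _ _ g _ (by rw [hda, heb]; ring) h1 h2

lemma kk_dvd (W d e : ℕ) (hd : d ∣ W) (he : e ∣ W) (hW : W ≠ 0) : kk d e ∣ W := by
  have hd0 : 0 < d := Nat.pos_of_dvd_of_pos hd (Nat.pos_of_ne_zero hW)
  have hg0 : 0 < Nat.gcd d e := Nat.gcd_pos_of_pos_left _ hd0
  unfold kk
  refine Nat.Coprime.mul_dvd_of_dvd_of_dvd (Nat.coprime_div_gcd_div_gcd hg0) ?_ ?_
  · exact (Nat.div_dvd_of_dvd (Nat.gcd_dvd_left d e)).trans hd
  · exact (Nat.div_dvd_of_dvd (Nat.gcd_dvd_right d e)).trans he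

lemma kk_inj (d d' e : ℕ) (hd : Squarefree d) (hd' : Squarefree d') (he : Squarefree e)
    (h : kk d e = kk d' e) : d = d' := by
  rw [← Nat.prod_primeFactors_of_squarefree hd, ← Nat.prod_primeFactors_of_squarefree hd']
  have : d.primeFactors = d'.primeFactors := by
    ext p
    rw [Nat.mem_primeFactors_of_ne_zero hd.ne_zero, Nat.mem_primeFactors_of_ne_zero hd'.ne_zero]
    constructor
    · rintro ⟨hp, hpd⟩
      refine ⟨hp, ?_⟩
      have h1 := (key p hp d e hd he).1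
      have h2 := (key p hp d' e hd' he).1
      rw [h, h2, dv_nat, dv_nat, dv_nat] at h1
      by_contra hn
      by_cases hpe : p ∣ e
      · simp [hpd, hn, hpe] at h1
      · simp [hpd, hn, hpe] at h1
    · rintro ⟨hp, hpd⟩
      refine ⟨hp, ?_⟩
      have h1 := (key p hp d e hd he).1
      have h2 := (key p hp d' e hd' he).1
      rw [h, h2, dv_nat, dv_nat, dv_nat] at h1
      by_contra hn
      by_cases hpe : p ∣ e
      · simp [hpd, hn, hpe] at h1
      · simp [hpd, hn, hpe] at h1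
  rw [this]

theorem t_XT2 : S_XT2 := by
  classical
  intro W m b _ hW _ _
  have hW0 : W ≠ 0 := hW.ne_zero
  unfold NL
  refine Finset.card_le_mul_card_image_of_maps_to (f := fun d : ℕ × ℕ => d.2) ?_ _ ?_
  · rintro ⟨d1, d2⟩ hd
    rw [Finset.mem_filter] at hd
    obtain ⟨hm, hl⟩ := hd
    rw [Finset.mem_product] at hm
    unfold GG
    rw [Finset.mem_filter]
    exact ⟨hm.2, fun p hp => (hl p hp).1⟩
  · intro d2 hd2
    rcases Finset.eq_empty_or_nonempty (((W.divisors ×ˢ W.divisors).filter (fun d : ℕ × ℕ =>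
      ∀ p ∈ W.primeFactors, LQ m b p (dv p d.1) (dv p d.2) (sgn p d.1) (sgn p d.2))).filter
        (fun d : ℕ × ℕ => d.2 = d2)) with h0 | ⟨⟨e, e2⟩, he⟩
    · rw [h0]; simp
    · rw [Finset.mem_filter, Finset.mem_filter, Finset.mem_product] at he
      obtain ⟨⟨⟨he1, he2⟩, hel⟩, he3⟩ := he
      simp only at he1 he2 he3 hel
      subst he3
      have heW : e ∣ W := Nat.dvd_of_mem_divisors he1
      have sqe : Squarefree e := hW.squarefree_of_dvd heW
      refine Finset.card_le_card_of_injOn (fun d : ℕ × ℕ => kk d.1 e) ?_ ?_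
      · rintro ⟨d, d2⟩ hd
        rw [Finset.mem_coe, Finset.mem_filter, Finset.mem_filter, Finset.mem_product] at hd
        obtain ⟨⟨⟨hd1, hd2'⟩, hdl⟩, hd3⟩ := hd
        simp only at hd1 hd2' hd3 hdl
        subst hd3
        have hdW : d ∣ W := Nat.dvd_of_mem_divisors hd1
        have sqd : Squarefree d := hW.squarefree_of_dvd hdW
        simp only [Finset.mem_coe]
        unfold GG
        rw [Finset.mem_filter]
        refine ⟨Nat.mem_divisors.2 ⟨kk_dvd W d e hdW heW hW0, hW0⟩, fun p hp => ?_⟩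
        have hpp : p.Prime := Nat.prime_of_mem_primeFactors hp
        obtain ⟨k1, k2⟩ := key p hpp d e sqd sqe
        have l1 := (hdl p hp).2
        have l2 := (hel p hp).2
        rw [k1, k2, l1, l2]
        generalize dv p (d : ℤ) = A
        generalize dv p (e : ℤ) = B
        generalize dv p (d2 : ℤ) = C
        generalize sgn p m = M
        generalize sg0 p (-b) = N
        revert A B C M N
        decide
      · rintro ⟨d, d2⟩ hd ⟨d', d2'⟩ hd' hh
        rw [Finset.mem_coe, Finset.mem_filter, Finset.mem_filter, Finset.mem_product] at hd hd'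
        obtain ⟨⟨⟨hd1, _⟩, _⟩, hd3⟩ := hd
        obtain ⟨⟨⟨hd1', _⟩, _⟩, hd3'⟩ := hd'
        simp only at hd1 hd1' hd3 hd3' hh
        have hdW : d ∣ W := Nat.dvd_of_mem_divisors hd1
        have sqd : Squarefree d := hW.squarefree_of_dvd hdW
        have hdW' : d' ∣ W := Nat.dvd_of_mem_divisors hd1'
        have sqd' : Squarefree d' := hW.squarefree_of_dvd hdW'
        have := kk_inj d d' e sqd sqd' sqe hh
        rw [this, hd3, hd3']

end Pool.Agent.N87.AN
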